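import Mathlib

set_option autoImplicit false

namespace Pool.Agent.Results.MP_c74d57_an.NoRationalOptimum

open PowerSeries Real

/-- Causal matrix sequences. -/
abbrev MSeq (p q : ℕ) := ℕ → Matrix (Fin p) (Fin q) ℝ

/-- Membership in l_1. -/
def InL1 {p q : ℕ} (G : MSeq p q) : Prop := ∀ i j, Summable (fun k => |G k i j|)

/-- Convolution product. -/
def conv {p q r : ℕ} (G : MSeq p q) (F : MSeq q r) : MSeq p r :=
  fun k => ∑ t ∈ Finset.range (k + 1), G t * F (k - t)

/-- The peak-to-peak induced norm. -/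
noncomputable def norm1 {p q : ℕ} (G : MSeq p q) : ℝ := ⨆ i, ∑ j, ∑' k, |G k i j|

/-- The transform of a scalar sequence is a rational function. -/
def IsRatSeq (s : ℕ → ℝ) : Prop :=
  ∃ a b : Polynomial ℝ, b ≠ 0 ∧ (b : ℝ⟦X⟧) * PowerSeries.mk s = (a : ℝ⟦X⟧)

/-- Every entry of the transform is rational. -/
def IsRational {p q : ℕ} (G : MSeq p q) : Prop := ∀ i j, IsRatSeq (fun k => G k i j)

/-- Rank of the transform over the fraction field of the power series ring. -/
noncomputable def normalRank {p q : ℕ} (G : MSeq p q) : ℕ :=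
  (Matrix.of fun i j =>
    algebraMap ℝ⟦X⟧ (FractionRing ℝ⟦X⟧) (PowerSeries.mk (fun k => G k i j))).rank

/-- Q is an optimal solution of the model matching problem. -/
def IsOptimal {nz nw nu ny : ℕ} (H : MSeq nz nw) (U : MSeq nz nu) (V : MSeq ny nw)
    (Q : MSeq nu ny) : Prop :=
  InL1 Q ∧ ∀ Q' : MSeq nu ny, InL1 Q' →
    norm1 (H - conv (conv U Q) V) ≤ norm1 (H - conv (conv U Q') V)

lemma rat_lin {s t u : ℕ → ℝ} (hs : IsRatSeq s) (ht : IsRatSeq t) (c : ℝ)
    (h : ∀ k, u k = s k + c * t k) : IsRatSeq u := by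
  obtain ⟨a, b, hb, hab⟩ := hs
  obtain ⟨a', b', hb', hab'⟩ := ht
  refine ⟨b' * a + Polynomial.C c * (b * a'), b * b', mul_ne_zero hb hb', ?_⟩
  have : PowerSeries.mk u = PowerSeries.mk s + PowerSeries.C c * PowerSeries.mk t := by
    ext k; simp [h]
  rw [this]; push_cast; rw [← hab, ← hab']; ring

lemma rat_deriv {s : ℕ → ℝ} (hs : IsRatSeq s) : IsRatSeq (fun k => k * s k) := by
  obtain ⟨a, b, hb, hab⟩ := hs
  refine ⟨Polynomial.X * (Polynomial.derivative a * b - Polynomial.derivative b * a), b * b,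
    mul_ne_zero hb hb, ?_⟩
  have h1 : PowerSeries.mk (fun k : ℕ => (k : ℝ) * s k) = X * d⁄dX ℝ (PowerSeries.mk s) := by
    ext k
    cases k with
    | zero => simp
    | succ k => simp [coeff_succ_X_mul, coeff_derivative, mul_comm]
  have h2 := congrArg (d⁄dX ℝ) hab
  rw [Derivation.leibniz, derivative_coe, derivative_coe, smul_eq_mul, smul_eq_mul] at h2
  rw [h1]; push_cast; rw [← h2, ← hab]; ring

lemma rat_rec {s : ℕ → ℝ} (a b : ℝ) (h : ∀ k, s (k + 2) = a * s (k + 1) + b * s k) :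
    IsRatSeq s := by
  refine ⟨Polynomial.C (s 0) + Polynomial.C (s 1 - a * s 0) * Polynomial.X,
    1 - Polynomial.C a * Polynomial.X - Polynomial.C b * Polynomial.X ^ 2, ?_, ?_⟩
  · intro h0
    have := congrArg (Polynomial.coeff · 0) h0
    simp at this
  · push_cast
    ext k
    rw [sub_mul, sub_mul, one_mul, mul_assoc, mul_assoc, pow_two, mul_assoc]
    rcases k with _ | _ | k
    · simp
    · simp [coeff_succ_X_mul, coeff_C]
    · simp [coeff_succ_X_mul, coeff_C, coeff_X, h]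

/-- The oscillating data sequence. -/
noncomputable def a (k : ℕ) : ℝ := (1 / 2) ^ k * (k * cos k - k + 1)

lemma rat_geo : IsRatSeq (fun k => (1 / 2 : ℝ) ^ k) := rat_rec (1 / 2) 0 (fun k => by ring)

lemma rat_a : IsRatSeq a := by
  have h1 : IsRatSeq (fun k : ℕ => (1 / 2 : ℝ) ^ k * cos k) := rat_rec (cos 1) (-1 / 4) (fun k => by
    have e1 : cos ((k + 2 : ℕ) : ℝ) = cos ((k + 1 : ℕ) + 1) := by push_cast; ring_nf
    have e2 : cos (k : ℝ) = cos ((k + 1 : ℕ) - 1) := by push_cast; ring_nf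
    rw [e1, e2, cos_add, cos_sub]; ring)
  exact rat_lin (rat_lin (u := fun k => k * ((1 / 2 : ℝ) ^ k * cos k) + (-1) * (k * (1 / 2 : ℝ) ^ k))
    (rat_deriv h1) (rat_deriv rat_geo) (-1) (fun _ => rfl)) rat_geo 1 (fun k => by unfold a; ring)

lemma a_le (k : ℕ) : a k ≤ (1 / 2) ^ k := by
  have : (k : ℝ) * cos k ≤ k := mul_le_of_le_one_right (by positivity) (cos_le_one _)
  unfold a
  exact mul_le_of_le_one_right (by positivity) (by linarith)

lemma summ_geo : Summable (fun k : ℕ => (1 / 2 : ℝ) ^ k) := summable_geometric_two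

lemma summ_a : Summable (fun k => |a k|) := by
  have h := ((summable_pow_mul_geometric_of_norm_lt_one 1 (r := (1 / 2 : ℝ))
    (by norm_num)).mul_left 2).add summ_geo
  refine Summable.of_nonneg_of_le (fun _ => abs_nonneg _) (fun k => ?_) h
  unfold a
  rw [abs_mul, abs_of_pos (by positivity : (0 : ℝ) < (1 / 2) ^ k)]
  have h1 : |(k : ℝ) * cos k - k + 1| ≤ 2 * k + 1 := by
    have := neg_one_le_cos (k : ℝ)
    have := cos_le_one (k : ℝ)
    have : (0 : ℝ) ≤ k := by positivity
    rw [abs_le]; constructor <;> nlinarith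
  calc _ ≤ (1 / 2 : ℝ) ^ k * (2 * k + 1) := by gcongr
    _ = _ := by ring

lemma gap (M : ℕ) : ∃ δ > 0, ∀ j : ℕ, 1 ≤ j → j ≤ M → δ ≤ 1 - cos j := by
  induction M with
  | zero => exact ⟨1, one_pos, fun j h1 h2 => by omega⟩
  | succ M ih =>
    obtain ⟨δ, hδ, h⟩ := ih
    have h0 : 0 < 1 - cos ((M + 1 : ℕ) : ℝ) := by
      rcases (cos_le_one ((M + 1 : ℕ) : ℝ)).lt_or_eq with h1 | h1
      · linarith
      · exfalso
        obtain ⟨n, hn⟩ := (cos_eq_one_iff _).1 h1
        have hn0 : (n : ℝ) ≠ 0 := by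
          rintro h; rw [h, zero_mul] at hn
          have : (0 : ℝ) < ((M + 1 : ℕ) : ℝ) := by positivity
          linarith
        refine irrational_pi ⟨((M + 1 : ℕ) : ℚ) / (2 * n), ?_⟩
        push_cast at hn ⊢
        rw [← hn]; field_simp
    refine ⟨min δ _, lt_min hδ h0, fun j h1 h2 => ?_⟩
    rcases h2.lt_or_eq with h3 | rfl
    · exact (min_le_left _ _).trans (h j h1 (by omega))
    · exact min_le_right _ _

lemma isolated (D N : ℕ) : ∃ k, N < k ∧ 0 < a k ∧ ∀ j, 1 ≤ j → j ≤ D → a (k + j) ≤ 0 := by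
  obtain ⟨δ, hδ, h1⟩ := gap D
  obtain ⟨M, hM⟩ := exists_nat_ge (2 / δ)
  obtain ⟨δ', hδ', h2⟩ := gap (M + N)
  obtain ⟨n, hn⟩ := exists_nat_gt (max 40 (8 / min (δ / 2) δ'))
  have hn1 : (40 : ℝ) < n := (le_max_left _ _).trans_lt hn
  have hmin : 0 < min (δ / 2) δ' := lt_min (by positivity) hδ'
  have hn2 : 8 / min (δ / 2) δ' < n := (le_max_right _ _).trans_lt hn
  obtain ⟨k, hk0, hkn, hk⟩ := Real.exists_nat_abs_mul_sub_round_le (1 / (2 * π)) (n := n)
    (by exact_mod_cast (by linarith : (0 : ℝ) < n))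
  set r : ℤ := round ((k : ℝ) * (1 / (2 * π)))
  set η : ℝ := k - r * (2 * π) with hη
  have hη1 : |η| ≤ 8 / (n + 1) := by
    have : η = 2 * π * (k * (1 / (2 * π)) - r) := by rw [hη]; field_simp
    rw [this, abs_mul, abs_of_pos (by positivity : 0 < 2 * π)]
    calc _ ≤ 8 * (1 / ((n : ℝ) + 1)) := by gcongr; linarith [pi_le_four]
      _ = _ := by ring
  have hη2 : |η| < min (δ / 2) δ' := by
    rw [div_lt_iff₀ hmin] at hn2
    refine hη1.trans_lt ?_
    rw [div_lt_iff₀ (by positivity)]; nlinarith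
  have hcos : ∀ y : ℝ, cos (k + y) = cos (η + y) := by
    intro y
    rw [← cos_sub_int_mul_two_pi (k + y) r]; congr 1; rw [hη]; ring
  have hlip : ∀ y : ℝ, |cos (η + y) - cos y| ≤ |η| := by
    intro y; simpa using abs_cos_sub_cos_le (η + y) y
  have hkM : M + N < k := by
    by_contra hc
    have h3 := h2 k hk0 (by omega)
    have h4 := hcos 0
    have h5 := abs_le.1 (hlip 0)
    rw [add_zero] at h4
    rw [← h4, cos_zero] at h5
    linarith [min_le_right (δ / 2) δ', h5.1]
  refine ⟨k, by omega, ?_, fun j hj1 hj2 => ?_⟩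
  · unfold a
    refine mul_pos (by positivity) ?_
    have h4 := hcos 0
    rw [add_zero, add_zero] at h4
    have h5 := one_sub_sq_div_two_le_cos (x := η)
    have h6 : η ^ 2 ≤ (8 / (n + 1)) ^ 2 := by rw [← sq_abs]; gcongr
    have h7 : (k : ℝ) ≤ n := by exact_mod_cast hkn
    have h8 : (n : ℝ) * (8 / (n + 1)) ^ 2 < 2 := by
      rw [div_pow, ← mul_div_assoc, div_lt_iff₀ (by positivity)]; nlinarith
    have h9 : (k : ℝ) * η ^ 2 ≤ n * (8 / (n + 1)) ^ 2 := by gcongr
    have h10 : (0 : ℝ) ≤ k := by positivity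
    rw [h4]; nlinarith
  · unfold a
    refine mul_nonpos_of_nonneg_of_nonpos (by positivity) ?_
    have h3 := h1 j hj1 hj2
    have h5 := (abs_le.1 (hlip j)).2
    have h6 : δ / 2 ≤ 1 - cos (k + j) := by
      rw [hcos]; linarith [min_le_left (δ / 2) δ']
    have h7 : (M : ℝ) ≤ k + j := by exact_mod_cast (by omega : M ≤ k + j)
    rw [div_le_iff₀ hδ] at hM
    push_cast
    have h8 : (M : ℝ) * (δ / 2) ≤ (k + j) * (1 - cos (k + j)) := by gcongr
    nlinarith

lemma not_rat : ¬ IsRatSeq (fun k => max (a k) 0) := by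
  rintro ⟨p, q, hq, h⟩
  obtain ⟨k, hk, h1, h2⟩ := isolated q.natDegree p.natDegree
  have h3 := congrArg (coeff (q.natDegree + k)) h
  rw [Polynomial.coeff_coe, Polynomial.coeff_eq_zero_of_natDegree_lt (by omega), coeff_mul,
    Finset.sum_eq_single (q.natDegree, k)] at h3
  · simp only [Polynomial.coeff_coe, coeff_mk, Polynomial.coeff_natDegree, mul_eq_zero,
      Polynomial.leadingCoeff_eq_zero] at h3
    rcases h3 with h3 | h3
    · exact hq h3
    · rw [max_eq_left h1.le] at h3; linarith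
  · rintro ⟨i, j⟩ hij hne
    replace hij : i + j = q.natDegree + k := Finset.HasAntidiagonal.mem_antidiagonal.1 hij
    simp only [Polynomial.coeff_coe, coeff_mk]
    rcases lt_trichotomy i q.natDegree with h4 | h4 | h4
    · have := h2 (q.natDegree - i) (by omega) (by omega)
      rw [show k + (q.natDegree - i) = j by omega] at this
      rw [max_eq_right this, mul_zero]
    · exact absurd (Prod.ext h4 (by simp only; omega)) hne
    · rw [Polynomial.coeff_eq_zero_of_natDegree_lt h4, zero_mul]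
  · intro h4; simp at h4

/-- The data. -/
noncomputable def H0 : MSeq 1 3 := fun k => !![a k, 0, (1 / 2) ^ k]
noncomputable def U0 : MSeq 1 1 := fun k => if k = 0 then 1 else 0
noncomputable def V0 : MSeq 1 3 := fun k => if k = 0 then !![1, 1, 1] else 0

lemma conv_eq (Q : MSeq 1 1) (k : ℕ) (j : Fin 3) : conv (conv U0 Q) V0 k 0 j = Q k 0 0 := by
  have h1 : conv U0 Q = Q := by
    funext k
    unfold conv
    rw [Finset.sum_eq_single 0]
    · simp [U0]
    · intro t _ ht; simp [U0, ht]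
    · simp
  rw [h1]
  unfold conv
  rw [Finset.sum_eq_single k]
  · fin_cases j <;> simp [V0, Matrix.mul_apply]
  · intro t ht hne
    have : k - t ≠ 0 := by have := Finset.mem_range.1 ht; omega
    simp [V0, this]
  · simp

/-- cost at time k -/
noncomputable def cost (k : ℕ) (x : ℝ) : ℝ := |a k - x| + |x| + |(1 / 2) ^ k - x|

lemma summ_sub {s t : ℕ → ℝ} (hs : Summable (fun k => |s k|)) (ht : Summable (fun k => |t k|)) :
    Summable (fun k => |s k - t k|) := (hs.of_abs.sub ht.of_abs).abs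

lemma norm_eq (Q : MSeq 1 1) (hQ : InL1 Q) :
    HasSum (fun k => cost k (Q k 0 0)) (norm1 (H0 - conv (conv U0 Q) V0)) := by
  have h := ((summ_sub summ_a (hQ 0 0)).hasSum.add (hQ 0 0).hasSum).add
    (summ_sub summ_geo.abs (hQ 0 0)).hasSum
  have e : norm1 (H0 - conv (conv U0 Q) V0) = ∑' k, |a k - Q k 0 0| + ∑' k, |Q k 0 0| +
      ∑' k, |(1 / 2 : ℝ) ^ k - Q k 0 0| := by
    simp [norm1, Fin.sum_univ_three, conv_eq, H0]
  rw [e]; exact h

lemma cost_ge (k : ℕ) (x : ℝ) : cost k (max (a k) 0) + |x - max (a k) 0| ≤ cost k x := by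
  have h1 := a_le k
  have h2 : (0 : ℝ) < (1 / 2) ^ k := by positivity
  unfold cost
  generalize (1 / 2 : ℝ) ^ k = c at *
  generalize a k = b at *
  rcases le_total b 0 with h | h
  · rw [max_eq_right h]
    simp only [sub_zero, abs_zero, add_zero]
    rw [abs_of_nonpos h, abs_of_pos h2]
    linarith [neg_abs_le (b - x), le_abs_self (c - x)]
  · rw [max_eq_left h]
    simp only [sub_self, abs_zero, zero_add]
    rw [abs_of_nonneg h, abs_of_nonneg (by linarith : 0 ≤ c - b), abs_sub_comm x b]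
    linarith [le_abs_self x, le_abs_self (c - x)]

theorem result : ∃ (nz nw nu ny : ℕ) (H : MSeq nz nw) (U : MSeq nz nu) (V : MSeq ny nw),
    1 ≤ nz ∧ 1 ≤ nw ∧ 1 ≤ nu ∧ 1 ≤ ny ∧ InL1 H ∧ InL1 U ∧ InL1 V ∧
    IsRational H ∧ IsRational U ∧ IsRational V ∧
    ¬ (normalRank U = nz ∧ normalRank V = nw) ∧
    (∃ Q, IsOptimal H U V Q) ∧ ∀ Q, IsOptimal H U V Q → ¬ IsRational Q := by
  have hδs : ∀ c : ℝ, Summable (fun k : ℕ => |if k = 0 then c else 0|) := fun c =>
    (hasSum_ite_eq 0 c).summable.abs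
  have hδr : ∀ c : ℝ, IsRatSeq (fun k : ℕ => if k = 0 then c else 0) := fun c =>
    rat_rec 0 0 (fun k => by simp)
  let Q0 : MSeq 1 1 := fun k => !![max (a k) 0]
  have hQ0 : InL1 Q0 := by
    intro i j
    refine Summable.of_nonneg_of_le (fun _ => abs_nonneg _) (fun k => ?_) summ_a
    fin_cases i; fin_cases j
    simp only [Q0, Fin.zero_eta, Matrix.of_apply, Matrix.cons_val_zero]
    rw [abs_of_nonneg (le_max_right _ _)]
    exact max_le (le_abs_self _) (abs_nonneg _)
  have hQ00 : ∀ k, Q0 k 0 0 = max (a k) 0 := fun k => rfl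
  refine ⟨1, 3, 1, 1, H0, U0, V0, le_rfl, by norm_num, le_rfl, le_rfl, ?_, ?_, ?_, ?_, ?_, ?_, ?_,
    ⟨Q0, hQ0, fun Q hQ => ?_⟩, fun Q hQ hr => ?_⟩
  · intro i j
    fin_cases i; fin_cases j
    · exact summ_a
    · simp [H0, summable_zero]
    · exact summ_geo.abs
  · intro i j
    fin_cases i; fin_cases j
    convert hδs 1 using 3 with k
    unfold U0; split_ifs <;> simp
  · intro i j
    convert hδs 1 using 3 with k
    fin_cases i; fin_cases j <;> unfold V0 <;> split_ifs <;> simp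
  · intro i j
    fin_cases i; fin_cases j
    · exact rat_a
    · exact rat_rec 0 0 (fun k => by simp [H0])
    · exact rat_geo
  · intro i j
    exact rat_rec 0 0 (fun k => by simp [U0])
  · intro i j
    exact rat_rec 0 0 (fun k => by simp [V0])
  · rintro ⟨-, h⟩
    have : normalRank V0 ≤ 1 := Matrix.rank_le_height _
    omega
  · refine hasSum_le (fun k => ?_) (norm_eq Q0 hQ0) (norm_eq Q hQ)
    simp only [hQ00]
    linarith [cost_ge k (Q k 0 0), abs_nonneg (Q k 0 0 - max (a k) 0)]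
  · apply not_rat
    have h1 := hQ.2 Q0 hQ0
    have h2 : ∀ k, Q k 0 0 = max (a k) 0 := by
      intro k
      by_contra hne
      have h3 : 0 < |Q k 0 0 - max (a k) 0| := abs_pos.2 (sub_ne_zero.2 hne)
      have := hasSum_lt (i := k) (fun k => by
        have := cost_ge k (Q k 0 0)
        have := abs_nonneg (Q k 0 0 - max (a k) 0)
        simp only [hQ00]; linarith) (by
        have := cost_ge k (Q k 0 0)
        simp only [hQ00]; linarith) (norm_eq Q0 hQ0) (norm_eq Q hQ.1)
      linarith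
    have := hr 0 0
    simp only [h2] at this
    exact this

end Pool.Agent.Results.MP_c74d57_an.NoRationalOptimum
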